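import Pool.Agent.Q152.FenceGraph

/-!
MP_caa0a9_co, Q1: for a fence, the homomesies and the orbomesies among the linear combinations of
the indicator functions are the same for all Coxeter elements of the antichain toggle group.
-/

namespace Pool.Agent.Results.MP_caa0a9_co.AllCoxeterElements

open Finset Pool.Agent.Q152 Pool.Agent.Q152.Toggle Pool.Agent.Q152.FenceGraph

variable {F : Type} [Fintype F] [DecidableEq F] [PartialOrder F]

variable (F) in
/-- The antichains of `F`. -/
abbrev AC := {A : Finset F // IsAntichain (· ≤ ·) (A : Set F)}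

open Classical in
/-- The antichain toggle: the symmetric difference with `{x}` if this is an antichain, and the
given antichain otherwise. -/
noncomputable def tau (x : F) (A : AC F) : AC F :=
  if h : IsAntichain (· ≤ ·) ((symmDiff A.1 {x} : Finset F) : Set F) then ⟨symmDiff A.1 {x}, h⟩
  else A

theorem tau_tau (x : F) (A : AC F) : tau x (tau x A) = A := by
  by_cases h : IsAntichain (· ≤ ·) ((symmDiff A.1 {x} : Finset F) : Set F)
  · have e1 : tau x A = ⟨symmDiff A.1 {x}, h⟩ := dif_pos h
    have e2 : symmDiff (tau x A).1 {x} = A.1 := by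
      rw [e1]; exact symmDiff_symmDiff_cancel_right _ _
    have h2 : IsAntichain (· ≤ ·) ((symmDiff (tau x A).1 {x} : Finset F) : Set F) := by
      rw [e2]; exact A.2
    apply Subtype.ext
    rw [tau, dif_pos h2]
    exact e2
  · have e1 : tau x A = A := dif_neg h
    rw [e1, e1]

/-- The antichain toggle as a permutation. -/
noncomputable def tauPerm (x : F) : Equiv.Perm (AC F) :=
  Function.Involutive.toPerm (tau x) (tau_tau x)

/-- `w` is a Coxeter element: the product of the toggles in some order. -/
def IsCoxeter (w : Equiv.Perm (AC F)) : Prop :=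
  ∃ l : List F, l.Nodup ∧ (∀ v, v ∈ l) ∧ w = (l.map tauPerm).prod

/-- The orbit of `A` for the group generated by `w`. -/
def orb (w : Equiv.Perm (AC F)) (A : AC F) : Set (AC F) := MulAction.orbit (Subgroup.zpowers w) A

/-- The sum of `f` over a set of antichains. -/
noncomputable def total (f : AC F → ℝ) (O : Set (AC F)) : ℝ := ∑ᶠ B ∈ O, f B

/-- The indicator function of `y`. -/
def ind (y : F) (A : AC F) : ℝ := if y ∈ A.1 then 1 else 0

/-- `f` is `c`-mesic under the group generated by `w`. -/
def IsMesic (w : Equiv.Perm (AC F)) (f : AC F → ℝ) (c : ℝ) : Prop :=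
  ∀ A, total f (orb w A) / (orb w A).ncard = c

/-- `f` is orbomesic under the group generated by `w`. -/
def IsOrbomesic (w : Equiv.Perm (AC F)) (f : AC F → ℝ) : Prop :=
  ∀ A B, (orb w A).ncard = (orb w B).ncard → total f (orb w A) = total f (orb w B)

/-- antichains are the independent sets of the comparability graph -/
theorem ac_iff (A : Finset F) : IsAntichain (· ≤ ·) (A : Set F) ↔ Ind (cg F) A := by
  constructor
  · intro h u hu v hv hadj
    rcases hadj with h1 | h1
    · exact h hu hv h1.ne h1.le
    · exact h hv hu h1.ne h1.le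
  · intro h u hu v hv hne hle
    exact h u hu v hv (Or.inl (lt_of_le_of_ne hle hne))

/-- the bijection between the antichains and the independent sets -/
def ee : AC F ≃ St (cg F) := Equiv.subtypeEquivRight fun A => ac_iff A

theorem ee_val (A : AC F) : (ee A).1 = A.1 := rfl

theorem ee_tau (x : F) (A : AC F) : ee (tau x A) = tog (cg F) x (ee A) := by
  apply Subtype.ext
  ext y
  rw [ee_val]
  by_cases h : IsAntichain (· ≤ ·) ((symmDiff A.1 {x} : Finset F) : Set F)
  · have e1 : tau x A = ⟨symmDiff A.1 {x}, h⟩ := dif_pos h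
    rw [e1]
    by_cases hy : y = x
    · subst hy
      rw [mem_tog_self, ee_val]
      simp only [Finset.mem_symmDiff, Finset.mem_singleton, not_true_eq_false, and_false, true_and,
        false_or]
      constructor
      · intro h1
        refine ⟨h1, fun u hu hadj => ?_⟩
        have hne : u ≠ y := fun h => h1 (h ▸ hu)
        exact (ac_iff _).1 h y (by simp [Finset.mem_symmDiff, h1]) u
          (by simp [Finset.mem_symmDiff, hu, hne]) hadj
      · intro h1; exact h1.1
    · rw [mem_tog_ne hy, ee_val]
      simp [Finset.mem_symmDiff, hy]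
  · have e1 : tau x A = A := dif_neg h
    rw [e1]
    by_cases hy : y = x
    · subst hy
      rw [mem_tog_self, ee_val]
      have hyA : y ∉ A.1 := by
        intro hyA
        apply h
        have e2 : symmDiff A.1 {y} = A.1.erase y := by
          ext z
          simp only [Finset.mem_symmDiff, Finset.mem_singleton, Finset.mem_erase]
          constructor
          · rintro (h1 | h1)
            · exact ⟨h1.2, h1.1⟩
            · exact absurd (h1.1 ▸ hyA) h1.2
          · intro h1; exact Or.inl ⟨h1.2, h1.1⟩
        rw [e2]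
        exact A.2.subset (by simp)
      constructor
      · intro h1; exact absurd h1 hyA
      · rintro ⟨-, h2⟩
        exfalso
        apply h
        rw [ac_iff]
        have hm : ∀ z, z ∈ symmDiff A.1 {y} → z = y ∨ z ∈ A.1 := by
          intro z hz
          rw [Finset.mem_symmDiff, Finset.mem_singleton] at hz
          rcases hz with hz | hz
          · exact Or.inr hz.1
          · exact Or.inl hz.1
        intro u hu v hv hadj
        rcases hm u hu with hu' | hu'
        · rcases hm v hv with hv' | hv'
          · rw [hu', hv'] at hadj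
            exact (cg F).loopless.irrefl _ hadj
          · exact h2 v hv' (hu' ▸ hadj)
        · rcases hm v hv with hv' | hv'
          · exact h2 u hu' (hv' ▸ hadj.symm)
          · exact (ac_iff _).1 A.2 u hu' v hv' hadj
    · rw [mem_tog_ne hy, ee_val]

theorem ee_prod (l : List F) (A : AC F) :
    ee ((l.map tauPerm).prod A) = run (cg F) l.reverse (ee A) := by
  induction l with
  | nil => rfl
  | cons a l ih =>
    rw [List.map_cons, List.prod_cons, Equiv.Perm.mul_apply, List.reverse_cons, run_append, ← ih]
    exact ee_tau a _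

section orbits

variable {α : Type} [Finite α]

/-- the orbits of a permutation of a finite set -/
theorem orbit_eq (w : Equiv.Perm α) (a : α) : MulAction.orbit (Subgroup.zpowers w) a =
    (fun t => w^[t] a) '' (Set.Iio (Function.minimalPeriod w a)) := by
  have hper : a ∈ Function.periodicPts w :=
    Function.Injective.mem_periodicPts w.injective a
  have hpos := Function.minimalPeriod_pos_of_mem_periodicPts hper
  ext b
  constructor
  · rintro ⟨⟨g, hg⟩, rfl⟩
    obtain ⟨k, hk⟩ := (Submonoid.mem_powers_iff g w).1 (mem_powers_iff_mem_zpowers.2 hg)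
    refine ⟨k % Function.minimalPeriod w a, Nat.mod_lt _ hpos, ?_⟩
    change w^[k % Function.minimalPeriod w a] a = g a
    rw [Function.iterate_mod_minimalPeriod_eq, ← hk, Equiv.Perm.iterate_eq_pow]
  · rintro ⟨t, -, rfl⟩
    refine ⟨⟨w ^ t, Subgroup.npow_mem_zpowers w t⟩, ?_⟩
    change (w ^ t) a = w^[t] a
    rw [Equiv.Perm.iterate_eq_pow]

theorem orbit_inj (w : Equiv.Perm α) (a : α) :
    Set.InjOn (fun t => w^[t] a) (Set.Iio (Function.minimalPeriod w a)) :=
  Function.iterate_injOn_Iio_minimalPeriod

theorem orbit_ncard (w : Equiv.Perm α) (a : α) :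
    (MulAction.orbit (Subgroup.zpowers w) a).ncard = Function.minimalPeriod w a := by
  rw [orbit_eq, (orbit_inj w a).ncard_image]
  simp

theorem orbit_total (w : Equiv.Perm α) (a : α) (f : α → ℝ) :
    ∑ᶠ b ∈ MulAction.orbit (Subgroup.zpowers w) a, f b =
      ∑ t ∈ range (Function.minimalPeriod w a), f (w^[t] a) := by
  rw [orbit_eq, finsum_mem_image (orbit_inj w a)]
  have : Set.Iio (Function.minimalPeriod w a) =
      ((range (Function.minimalPeriod w a) : Finset ℕ) : Set ℕ) := by
    ext t; simp
  rw [this, finsum_mem_coe_finset]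

end orbits

/-- Any two Coxeter elements of a fence have the same orbits up to a bijection. -/
theorem main {n : ℕ} (x : Fin n ≃ F) (hx : IsFence x) (w w' : Equiv.Perm (AC F))
    (hw : IsCoxeter w) (hw' : IsCoxeter w') :
    ∃ Φ : AC F ≃ AC F, (∀ A, Φ (w A) = w' (Φ A)) ∧
      (∀ A, (orb w A).ncard = (orb w' (Φ A)).ncard) ∧
      ∀ A y, total (ind y) (orb w A) = total (ind y) (orb w' (Φ A)) := by
  obtain ⟨l, hl1, hl2, rfl⟩ := hw
  obtain ⟨l', hl1', hl2', rfl⟩ := hw'
  obtain ⟨Ψ, hΨ1, hΨ2⟩ := coxeter_eqv hx (l := l.reverse) (l' := l'.reverse)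
    (List.nodup_reverse.2 hl1) (List.nodup_reverse.2 hl1')
    (fun v => List.mem_reverse.2 (hl2 v)) (fun v => List.mem_reverse.2 (hl2' v))
  obtain ⟨w, hw⟩ : ∃ w : Equiv.Perm (AC F), w = (l.map tauPerm).prod := ⟨_, rfl⟩
  obtain ⟨w', hw'⟩ : ∃ w : Equiv.Perm (AC F), w = (l'.map tauPerm).prod := ⟨_, rfl⟩
  rw [← hw, ← hw']
  have e1 : ∀ A, ee (w A) = run (cg F) l.reverse (ee A) := fun A => by rw [hw]; exact ee_prod l A
  have e1' : ∀ A, ee (w' A) = run (cg F) l'.reverse (ee A) := fun A => by
    rw [hw']; exact ee_prod l' A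
  obtain ⟨Φ, hΦ⟩ : ∃ Φ : AC F ≃ AC F, Φ = (ee.trans Ψ).trans ee.symm := ⟨_, rfl⟩
  have e2 : ∀ A, ee (Φ A) = Ψ (ee A) := by
    intro A; rw [hΦ]; simp
  have hconj : ∀ A, Φ (w A) = w' (Φ A) := by
    intro A
    apply ee.injective
    rw [e2, e1, e1', e2, hΨ1]
  have i1 : ∀ (t : ℕ) (A : AC F), ee (w^[t] A) = (run (cg F) l.reverse)^[t] (ee A) := by
    intro t
    induction t with
    | zero => intro A; rfl
    | succ t ih => intro A; rw [Function.iterate_succ_apply, Function.iterate_succ_apply, ih, e1]
  have i1' : ∀ (t : ℕ) (A : AC F), ee (w'^[t] A) = (run (cg F) l'.reverse)^[t] (ee A) := by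
    intro t
    induction t with
    | zero => intro A; rfl
    | succ t ih => intro A; rw [Function.iterate_succ_apply, Function.iterate_succ_apply, ih, e1']
  have i2 : ∀ (t : ℕ) (A : AC F), Φ (w^[t] A) = w'^[t] (Φ A) := by
    intro t
    induction t with
    | zero => intro A; rfl
    | succ t ih => intro A; rw [Function.iterate_succ_apply, Function.iterate_succ_apply, ih, hconj]
  have hper : ∀ A, Function.minimalPeriod w A = Function.minimalPeriod w' (Φ A) := by
    intro A
    rw [Function.minimalPeriod_eq_minimalPeriod_iff]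
    intro n
    unfold Function.IsPeriodicPt Function.IsFixedPt
    rw [← i2, Φ.injective.eq_iff]
  refine ⟨Φ, hconj, fun A => ?_, fun A y => ?_⟩
  · unfold orb
    rw [orbit_ncard, orbit_ncard, hper]
  · unfold total orb
    rw [orbit_total, orbit_total, ← hper]
    have h1 := hΨ2 (ee A) (Function.minimalPeriod w A) (by
      rw [← i1, Function.iterate_minimalPeriod]) y
    have h2 : ∀ (B : AC F), ind y B = ((chi y (ee B) : ℕ) : ℝ) := by
      intro B
      unfold ind chi
      rw [ee_val]
      split_ifs <;> simp
    simp only [h2, i1, i1', e2]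
    rw [← Nat.cast_sum, ← Nat.cast_sum]
    exact congrArg Nat.cast h1

/-- **Independence of the Coxeter element for antichain toggles on fences.** -/
theorem result {n : ℕ} (x : Fin n ≃ F) (hx : IsFence x) (w w' : Equiv.Perm (AC F))
    (hw : IsCoxeter w) (hw' : IsCoxeter w') :
    (∃ Φ : AC F ≃ AC F, (∀ A, Φ (w A) = w' (Φ A)) ∧
      (∀ A, (orb w A).ncard = (orb w' (Φ A)).ncard) ∧
      ∀ A y, total (ind y) (orb w A) = total (ind y) (orb w' (Φ A))) ∧
    ∀ lam : F → ℝ,
      (∀ c : ℝ, IsMesic w (fun A => ∑ y, lam y * ind y A) c ↔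
        IsMesic w' (fun A => ∑ y, lam y * ind y A) c) ∧
      (IsOrbomesic w (fun A => ∑ y, lam y * ind y A) ↔
        IsOrbomesic w' (fun A => ∑ y, lam y * ind y A)) := by
  have hmain := main x hx w w' hw hw'
  refine ⟨hmain, fun lam => ?_⟩
  obtain ⟨Φ, -, h2, h3⟩ := hmain
  have h4 : ∀ (v : Equiv.Perm (AC F)) (A : AC F),
      total (fun A => ∑ y, lam y * ind y A) (orb v A) = ∑ y, lam y * total (ind y) (orb v A) := by
    intro v A
    unfold total orb
    rw [orbit_total, Finset.sum_comm]
    apply Finset.sum_congr rfl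
    intro y _
    rw [orbit_total, Finset.mul_sum]
  have h5 : ∀ A, total (fun A => ∑ y, lam y * ind y A) (orb w A) =
      total (fun A => ∑ y, lam y * ind y A) (orb w' (Φ A)) := by
    intro A
    rw [h4, h4]
    apply Finset.sum_congr rfl
    intro y _
    rw [h3]
  constructor
  · intro c
    constructor
    · intro h A
      have := h (Φ.symm A)
      rw [h5, h2, Equiv.apply_symm_apply] at this
      exact this
    · intro h A
      have := h (Φ A)
      rw [← h5, ← h2] at this
      exact this
  · constructor
    · intro h A B hAB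
      have := h (Φ.symm A) (Φ.symm B)
      rw [h5, h5, h2, h2, Equiv.apply_symm_apply, Equiv.apply_symm_apply] at this
      exact this hAB
    · intro h A B hAB
      have := h (Φ A) (Φ B)
      rw [← h5, ← h5, ← h2, ← h2] at this
      exact this hAB

end Pool.Agent.Results.MP_caa0a9_co.AllCoxeterElements
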